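import Pool.Agent.U174.AK.Stm

set_option autoImplicit false

/-! Project AK, package CLOS: countable subfields closed under Hensel's lemma; they are henselian. -/

namespace Pool.Agent.U460.AK

open IsLocalRing Polynomial
open Pool.Agent.U174.AK

/-- the polynomials over a countable ring -/
theorem countable_poly (R : Type) [CommRing R] [Countable R] : Countable R[X] := by
  rw [← Cardinal.mk_le_aleph0_iff]
  exact Polynomial.cardinalMk_le_max.trans (max_le (Cardinal.mk_le_aleph0_iff.2 inferInstance) le_rfl)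

theorem countable_closure {K : Type} [Field K] {s : Set K} (hs : s.Countable) :
    Countable (Subfield.closure s) := by
  rw [← Cardinal.mk_le_aleph0_iff]
  exact (Subfield.cardinalMk_closure_le_max (s := s)).trans
    (max_le (Cardinal.mk_le_aleph0_iff.2 hs.to_subtype) le_rfl)

section
variable {K : Type} [Field K] (O : ValuationSubring K)

/-- the root of Hensel's lemma -/
def HSpec (p : K[X]) (a b : K) : Prop :=
  ∃ (f : O[X]) (a₀ b₀ : O), f.map O.subtype = p ∧ (a₀ : K) = a ∧ (b₀ : K) = b ∧ f.IsRoot b₀ ∧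
    b₀ - a₀ ∈ maximalIdeal O

open Classical in
noncomputable def hs (p : K[X]) (a : K) : K := if h : ∃ b, HSpec O p a b then h.choose else 0

open Classical in
noncomputable def vs (x : K) (m : ℕ) : K :=
  if h : ∃ y : K, O.valuation y ^ m = O.valuation x then h.choose else 0

/-- one step -/
noncomputable def cl (E : Subfield K) : Subfield K :=
  Subfield.closure (((E : Set K) ∪ Set.range (fun q : E[X] × E => hs O (q.1.map E.subtype) q.2)) ∪
    Set.range (fun q : E × ℕ => vs O q.1 q.2))

theorem le_cl (E : Subfield K) : E ≤ cl O E :=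
  fun _ hx => Subfield.subset_closure (Or.inl (Or.inl hx))

theorem countable_cl (E : Subfield K) (hE : Countable E) : Countable (cl O E) := by
  haveI := countable_poly E
  apply countable_closure
  refine ((?_ : Set.Countable _).union (Set.countable_range _)).union (Set.countable_range _)
  exact Set.countable_coe_iff.1 hE

/-- the sequence of subfields -/
noncomputable def Es (A : ℕ → K) : ℕ → Subfield K
  | 0 => Subfield.closure (Set.range A)
  | n + 1 => cl O (Es A n)

theorem Es_mono (A : ℕ → K) : Monotone (Es O A) := monotone_nat_of_le_succ fun n => le_cl O _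

theorem Es_countable (A : ℕ → K) : ∀ n, Countable (Es O A n)
  | 0 => countable_closure (Set.countable_range A)
  | n + 1 => countable_cl O _ (Es_countable A n)

theorem mem_union {A : ℕ → K} {x : K} : x ∈ (⨆ n, Es O A n) ↔ ∃ n, x ∈ Es O A n :=
  Subfield.mem_iSup_of_directed (Es_mono O A).directed_le

end

theorem t_CLOS : S_CLOS := by
  intro K _ O hO A
  refine ⟨⨆ n, Es O A n, ?_, ?_, ?_, ?_⟩
  · have h1 : (((⨆ n, Es O A n : Subfield K) : Set K)).Countable := by
      have h2 : (((⨆ n, Es O A n : Subfield K) : Set K)) ⊆ ⋃ n, (Es O A n : Set K) := by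
        intro x hx
        obtain ⟨n, hn⟩ := (mem_union O).1 hx
        exact Set.mem_iUnion.2 ⟨n, hn⟩
      refine Set.Countable.mono h2 (Set.countable_iUnion fun n => ?_)
      exact Set.countable_coe_iff.1 (Es_countable O A n)
    exact h1.to_subtype
  · intro n
    exact (mem_union O).2 ⟨0, Subfield.subset_closure ⟨n, rfl⟩⟩
  · intro f hf hc a₀ ha₀ h1 h2
    have hc' : ∀ i, ∃ n, ((f.coeff i : O) : K) ∈ Es O A n := fun i => (mem_union O).1 (hc i)
    choose n hn using hc'
    obtain ⟨n₀, hn₀⟩ := (mem_union O).1 ha₀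
    obtain ⟨N, hN⟩ : ∃ N, N = max n₀ ((Finset.range (f.natDegree + 1)).sup n) := ⟨_, rfl⟩
    have ha : (a₀ : K) ∈ Es O A N := Es_mono O A (by rw [hN]; exact le_max_left _ _) hn₀
    have hcN : ∀ i, ((f.coeff i : O) : K) ∈ Es O A N := by
      intro i
      by_cases hi : i < f.natDegree + 1
      · refine Es_mono O A ?_ (hn i)
        rw [hN]
        exact (Finset.le_sup (f := n) (Finset.mem_range.2 hi)).trans (le_max_right _ _)
      · rw [Polynomial.coeff_eq_zero_of_natDegree_lt (by omega)]
        exact zero_mem _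
    have hl : f.map O.subtype ∈ Polynomial.lifts (Es O A N).subtype := by
      rw [Polynomial.lifts_iff_coeff_lifts]
      intro i
      refine ⟨⟨_, hcN i⟩, ?_⟩
      rw [Polynomial.coeff_map]
      rfl
    obtain ⟨p, hp⟩ := (Polynomial.mem_lifts _).1 hl
    obtain ⟨b, hb1, hb2⟩ := hO.is_henselian f hf a₀ h1 h2
    have hex : ∃ b, HSpec O (p.map (Es O A N).subtype) (a₀ : K) b :=
      ⟨b, f, a₀, b, hp.symm, rfl, rfl, hb1, hb2⟩
    have hsp := hex.choose_spec
    obtain ⟨f', a₁, b₁, e1, e2, e3, e4, e5⟩ := hsp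
    have hsub : Function.Injective O.subtype := Subtype.val_injective
    have ef : f' = f := Polynomial.map_injective _ hsub (e1.trans hp)
    have ea : a₁ = a₀ := Subtype.ext e2
    subst ef
    subst ea
    refine ⟨b₁, (mem_union O).2 ⟨N + 1, ?_⟩, e4, e5⟩
    apply Subfield.subset_closure
    refine Or.inl (Or.inr ⟨(p, ⟨_, ha⟩), ?_⟩)
    change hs O (p.map (Es O A N).subtype) (a₁ : K) = b₁
    unfold hs
    rw [dif_pos hex, e3]
  · intro γ m hm hx
    obtain ⟨x, hx, hxγ⟩ := hx
    obtain ⟨N, hN⟩ := (mem_union O).1 hx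
    obtain ⟨y, hy⟩ := O.valuation_surjective γ
    have hex : ∃ y : K, O.valuation y ^ m = O.valuation x := ⟨y, by rw [hy, hxγ]⟩
    refine ⟨vs O x m, (mem_union O).2 ⟨N + 1, ?_⟩, ?_⟩
    · apply Subfield.subset_closure
      exact Or.inr ⟨(⟨x, hN⟩, m), rfl⟩
    · have h1 : O.valuation (vs O x m) ^ m = O.valuation x := by
        unfold vs
        rw [dif_pos hex]
        exact hex.choose_spec
      rw [hxγ] at h1
      exact (pow_left_inj₀ zero_le' zero_le' (by omega)).1 h1

theorem t_HCH : S_HCH := by
  intro K _ O E hE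
  let φ : (O.comap E.subtype) →+* O :=
    { toFun := fun x => ⟨((x : E) : K), x.2⟩
      map_one' := rfl
      map_mul' := fun _ _ => rfl
      map_zero' := rfl
      map_add' := fun _ _ => rfl }
  have hφ : ∀ x, ((φ x : O) : K) = ((x : E) : K) := fun _ => rfl
  have hinj : Function.Injective φ := by
    intro x y h
    apply Subtype.ext
    apply Subtype.ext
    exact congrArg (fun z : O => (z : K)) h
  have hloc : ∀ x, IsUnit (φ x) → IsUnit x := by
    intro x hx
    obtain ⟨u, hu⟩ := hx.exists_right_inv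
    have h1 : ((x : E) : K) * (u : K) = 1 := congrArg Subtype.val hu
    have hx0 : (x : E) ≠ 0 := by
      intro h
      rw [h] at h1
      simp at h1
    have h2 : (((x : E)⁻¹ : E) : K) = u := by
      rw [Subfield.coe_inv]
      exact inv_eq_of_mul_eq_one_right h1
    have h3 : ((x : E)⁻¹ : E) ∈ O.comap E.subtype := by
      change (((x : E)⁻¹ : E) : K) ∈ O
      rw [h2]
      exact u.2
    rw [isUnit_iff_exists_inv]
    refine ⟨⟨_, h3⟩, ?_⟩
    apply Subtype.ext
    exact mul_inv_cancel₀ hx0
  have hmax : ∀ x, φ x ∈ maximalIdeal O ↔ x ∈ maximalIdeal (O.comap E.subtype) := by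
    intro x
    rw [mem_maximalIdeal, mem_maximalIdeal, mem_nonunits_iff, mem_nonunits_iff]
    exact not_congr ⟨hloc x, fun h => h.map φ⟩
  refine { is_henselian := ?_ }
  intro f hf a₀ h1 h2
  obtain ⟨a, ha1, ha2, ha3⟩ := hE (f.map φ) (hf.map φ) (by
    intro i
    rw [Polynomial.coeff_map]
    exact ((f.coeff i : O.comap E.subtype) : E).2) (φ a₀) (a₀ : E).2 (by
    rw [Polynomial.eval_map_apply, hmax]
    exact h1) (by
    rw [Polynomial.derivative_map, Polynomial.eval_map_apply]
    exact h2.map φ)
  let a' : O.comap E.subtype := ⟨⟨(a : K), ha1⟩, a.2⟩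
  have haa : φ a' = a := rfl
  refine ⟨a', ?_, ?_⟩
  · apply hinj
    rw [← Polynomial.eval_map_apply, haa, map_zero]
    exact ha2
  · rw [← hmax, map_sub, haa]
    exact ha3

end Pool.Agent.U460.AK
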